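import Mathlib

/-!
# Non-ergodic products have non-constant `L²` eigenfunctions

If `S` preserves the probability measure `m` and `S × S` is not ergodic, then `S` has a nonconstant
square integrable eigenfunction.
-/

open MeasureTheory Filter Topology Set
open scoped InnerProductSpace ENNReal ComplexConjugate

set_option autoImplicit false

namespace Pool.Agent.Skew

section Abstract

variable {E : Type*} [NormedAddCommGroup E] [InnerProductSpace ℂ E] [CompleteSpace E]

lemma exists_eigen_of_symm (U : E →ₗᵢ[ℂ] E) (B : E →L[ℂ] E) (hB : IsCompactOperator B)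
    (hsym : B.IsSymmetric) (hne : B ≠ 0)
    (hUB : ∀ u v, ⟪B (U u), U v⟫_ℂ = ⟪B u, v⟫_ℂ) :
    ∃ (κ z : ℂ) (f : E), κ ≠ 0 ∧ B f = κ • f ∧ f ≠ 0 ∧ U f = z • f ∧ ‖z‖ = 1 := by
  have hnt : Nontrivial E := by
    by_contra hcon
    rw [not_nontrivial_iff_subsingleton] at hcon
    apply hne
    ext x
    exact Subsingleton.elim _ _
  obtain ⟨κ, hκ, hκn⟩ := spectrum.exists_nnnorm_eq_spectralRadius B
  rw [B.spectralRadius_eq_nnnorm hsym.isSelfAdjoint] at hκn
  have hκn' : ‖κ‖ = ‖B‖ := by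
    have := ENNReal.coe_injective hκn
    exact congrArg NNReal.toReal this
  have hκ0 : κ ≠ 0 := by
    intro h0
    rw [h0, norm_zero] at hκn'
    exact hne (norm_eq_zero.mp hκn'.symm)
  have hev : Module.End.HasEigenvalue (B : Module.End ℂ E) κ :=
    (hB.hasEigenvalue_iff_mem_spectrum hκ0).2 hκ
  have hfd : FiniteDimensional ℂ (Module.End.eigenspace B.toLinearMap κ) :=
    ContinuousLinearMap.finite_dimensional_eigenspace hB κ hκ0
  have hmem : ∀ v ∈ Module.End.eigenspace B.toLinearMap κ,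
      U.toLinearMap v ∈ Module.End.eigenspace B.toLinearMap κ := by
    intro v hv
    rw [Module.End.mem_eigenspace_iff] at hv ⊢
    have hv' : B v = κ • v := hv
    show B (U v) = κ • U v
    have h1 : ⟪B (U v), κ • U v⟫_ℂ = ((‖κ‖ ^ 2 * ‖v‖ ^ 2 : ℝ) : ℂ) := by
      rw [inner_smul_right, hUB, hv', inner_smul_left, inner_self_eq_norm_sq_to_K,
        ← mul_assoc, Complex.mul_conj, Complex.normSq_eq_norm_sq]
      push_cast
      rfl
    have h2 : ‖B (U v) - κ • U v‖ ^ 2 ≤ 0 := by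
      rw [@norm_sub_sq ℂ, h1]
      have h3 : ‖B (U v)‖ ≤ ‖κ‖ * ‖v‖ := by
        rw [hκn']
        calc ‖B (U v)‖ ≤ ‖B‖ * ‖U v‖ := B.le_opNorm _
          _ = ‖B‖ * ‖v‖ := by rw [U.norm_map]
      have h4 : ‖B (U v)‖ ^ 2 ≤ ‖κ‖ ^ 2 * ‖v‖ ^ 2 := by
        rw [← mul_pow]
        exact pow_le_pow_left₀ (norm_nonneg _) h3 2
      rw [norm_smul, U.norm_map, mul_pow]
      have : RCLike.re (((‖κ‖ ^ 2 * ‖v‖ ^ 2 : ℝ) : ℂ)) = ‖κ‖ ^ 2 * ‖v‖ ^ 2 := by
        simp only [RCLike.re_to_complex, Complex.ofReal_re]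
      rw [this]
      linarith
    have h5 : ‖B (U v) - κ • U v‖ = 0 := by
      have := sq_nonneg ‖B (U v) - κ • U v‖
      have h6 : ‖B (U v) - κ • U v‖ ^ 2 = 0 := le_antisymm h2 this
      exact pow_eq_zero_iff (two_ne_zero) |>.1 h6
    exact sub_eq_zero.1 (norm_eq_zero.1 h5)
  have : Nontrivial (Module.End.eigenspace B.toLinearMap κ) := by
    obtain ⟨w, hw⟩ := hev.exists_hasEigenvector
    exact ⟨⟨w, hw.1⟩, 0, fun h => hw.2 (congrArg Subtype.val h)⟩
  obtain ⟨z, hz⟩ := Module.End.exists_eigenvalue (U.toLinearMap.restrict hmem)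
  obtain ⟨f, hf⟩ := hz.exists_hasEigenvector
  have hf1 : (U.toLinearMap.restrict hmem) f = z • f := hf.apply_eq_smul
  have hf2 : U (f : E) = z • (f : E) := by
    have := congrArg Subtype.val hf1
    simpa using this
  have hf0 : (f : E) ≠ 0 := fun h => hf.2 (Subtype.ext h)
  refine ⟨κ, z, f, hκ0, ?_, hf0, hf2, ?_⟩
  · exact (Module.End.mem_eigenspace_iff.1 f.2)
  · have h1 := U.norm_map (f : E)
    rw [hf2, norm_smul] at h1
    have h2 : ‖(f : E)‖ ≠ 0 := norm_ne_zero_iff.2 hf0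
    exact mul_right_cancel₀ h2 (by rw [h1, one_mul])

/-- If `T` is a compact operator, invariant in the weak sense under the isometry `U`, and not a
multiple of the projection to the `U`-fixed unit vector `e`, then `U` has an eigenvector outside the
line through `e`. -/
lemma exists_eigen (U : E →ₗᵢ[ℂ] E) (T T' : E →L[ℂ] E) (hT : IsCompactOperator T)
    (hT' : IsCompactOperator T') (hadj : ∀ u v, ⟪T u, v⟫_ℂ = ⟪u, T' v⟫_ℂ)
    (hinv : ∀ u v, ⟪T (U u), U v⟫_ℂ = ⟪T u, v⟫_ℂ) (e : E) (he : ‖e‖ = 1) (hUe : U e = e)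
    (hne : ∀ c : ℂ, ¬ ∀ u v, ⟪T u, v⟫_ℂ = c * (⟪u, e⟫_ℂ * ⟪e, v⟫_ℂ)) :
    ∃ (z : ℂ) (f : E), ‖z‖ = 1 ∧ U f = z • f ∧ ¬ ∃ c : ℂ, f = c • e := by
  by_contra hcon
  push Not at hcon
  -- fixed vectors
  have key : ∀ R : E →L[ℂ] E, (∀ u v, ⟪R (U u), U v⟫_ℂ = ⟪R u, v⟫_ℂ) → ∃ c : ℂ, R e = c • e := by
    intro R hR
    have h1 : ⟪R e, U (R e)⟫_ℂ = ((‖R e‖ ^ 2 : ℝ) : ℂ) := by
      have := hR e (R e)
      rw [hUe] at this
      rw [this, inner_self_eq_norm_sq_to_K]
      push_cast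
      rfl
    have h2 : ‖U (R e) - R e‖ ^ 2 = 0 := by
      rw [norm_sub_rev, @norm_sub_sq ℂ, h1, U.norm_map]
      have : RCLike.re (((‖R e‖ ^ 2 : ℝ) : ℂ)) = ‖R e‖ ^ 2 := by
        simp only [RCLike.re_to_complex, Complex.ofReal_re]
      rw [this]
      ring
    have h3 : U (R e) = (1 : ℂ) • R e := by
      rw [one_smul]
      exact sub_eq_zero.1 (norm_eq_zero.1 (pow_eq_zero_iff (two_ne_zero) |>.1 h2))
    exact hcon 1 (R e) norm_one h3
  have hinv' : ∀ u v, ⟪T' (U u), U v⟫_ℂ = ⟪T' u, v⟫_ℂ := by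
    intro u v
    rw [← inner_conj_symm, ← hadj, hinv, hadj, inner_conj_symm]
  obtain ⟨c, hc⟩ := key T hinv
  obtain ⟨c', hc'⟩ := key T' hinv'
  have hee : ⟪e, e⟫_ℂ = 1 := by
    rw [inner_self_eq_norm_sq_to_K, he]
    simp
  have hcc : c' = conj c := by
    have h1 := hadj e e
    rw [hc, hc', inner_smul_left, inner_smul_right, hee, mul_one, mul_one] at h1
    exact h1.symm
  -- the projection
  let P : E →L[ℂ] E := (innerSL ℂ e).smulRight e
  have hP : ∀ u, P u = ⟪e, u⟫_ℂ • e := fun u => by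
    simp [P]
  have hPc : IsCompactOperator P := by
    have h1 : IsCompactOperator (innerSL ℂ e) :=
      isCompactOperator_of_locallyCompactSpace_dom (innerSL ℂ e)
    have h2 : IsCompactOperator (((ContinuousLinearMap.id ℂ ℂ).smulRight e) ∘ (innerSL ℂ e)) :=
      h1.clm_comp _
    have h3 : (P : E → E) = (((ContinuousLinearMap.id ℂ ℂ).smulRight e) ∘ (innerSL ℂ e)) := by
      ext u
      simp [P]
    rw [h3]
    exact h2
  have hPs : ∀ u v, ⟪P u, v⟫_ℂ = ⟪u, P v⟫_ℂ := by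
    intro u v
    rw [hP, hP, inner_smul_left, inner_smul_right, inner_conj_symm, mul_comm]
  have hPe : P e = e := by rw [hP, hee, one_smul]
  have heU : ∀ u, ⟪e, U u⟫_ℂ = ⟪e, u⟫_ℂ := by
    intro u
    conv_lhs => rw [← hUe]
    exact U.inner_map_map _ _
  have hPinv : ∀ u v, ⟪P (U u), U v⟫_ℂ = ⟪P u, v⟫_ℂ := by
    intro u v
    rw [hP, hP, inner_smul_left, inner_smul_left, heU, heU]
  let T0 : E →L[ℂ] E := T - c • P
  let T0' : E →L[ℂ] E := T' - (conj c) • P
  have hT0c : IsCompactOperator T0 := hT.sub (hPc.smul c)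
  have hT0c' : IsCompactOperator T0' := hT'.sub (hPc.smul (conj c))
  have hT0adj : ∀ u v, ⟪T0 u, v⟫_ℂ = ⟪u, T0' v⟫_ℂ := by
    intro u v
    simp only [T0, T0', sub_apply, smul_apply,
      inner_sub_left, inner_sub_right, inner_smul_left, inner_smul_right, hadj, hPs]
  have hT0inv : ∀ u v, ⟪T0 (U u), U v⟫_ℂ = ⟪T0 u, v⟫_ℂ := by
    intro u v
    simp only [T0, sub_apply, smul_apply,
      inner_sub_left, inner_smul_left, hinv, hPinv]
  have hT0inv' : ∀ u v, ⟪T0' (U u), U v⟫_ℂ = ⟪T0' u, v⟫_ℂ := by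
    intro u v
    simp only [T0', sub_apply, smul_apply,
      inner_sub_left, inner_smul_left, hinv', hPinv]
  have hT0e : T0 e = 0 := by
    simp only [T0, sub_apply, smul_apply, hPe, hc, sub_self]
  have hT0e' : T0' e = 0 := by
    simp only [T0', sub_apply, smul_apply, hPe, hc', hcc,
      sub_self]
  have hT0ne : T0 ≠ 0 := by
    intro h0
    apply hne (conj c)
    intro u v
    have h1 : T0 u = 0 := by rw [h0]; rfl
    have h2 : T u = c • P u := by
      have : T u - c • P u = 0 := h1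
      exact sub_eq_zero.1 this
    rw [h2, hP, inner_smul_left, inner_smul_left, inner_conj_symm]
  -- final contradiction from a symmetric operator
  have fin : ∀ B : E →L[ℂ] E, IsCompactOperator B → B.IsSymmetric →
      (∀ u v, ⟪B (U u), U v⟫_ℂ = ⟪B u, v⟫_ℂ) → B e = 0 → B = 0 := by
    intro B hB hBs hBi hBe
    by_contra hB0
    obtain ⟨κ, z, f, hκ, hf, hf0, hUf, hz⟩ := exists_eigen_of_symm U B hB hBs hB0 hBi
    obtain ⟨a, ha⟩ := hcon z f hz hUf
    rw [ha, map_smul, hBe, smul_zero] at hf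
    rw [← ha] at hf
    exact (smul_ne_zero hκ hf0) hf.symm
  have hB1 : T0 + T0' = 0 := by
    refine fin _ (hT0c.add hT0c') ?_ ?_ ?_
    · intro u v
      show ⟪T0 u + T0' u, v⟫_ℂ = ⟪u, T0 v + T0' v⟫_ℂ
      rw [inner_add_left, inner_add_right, hT0adj u v, ← inner_conj_symm (T0' u) v, ← hT0adj v u,
        inner_conj_symm]
      ring
    · intro u v
      simp only [add_apply, inner_add_left, hT0inv, hT0inv']
    · simp only [add_apply, hT0e, hT0e', add_zero]
  have hB2 : Complex.I • (T0 - T0') = 0 := by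
    refine fin _ ((hT0c.sub hT0c').smul Complex.I) ?_ ?_ ?_
    · intro u v
      show ⟪Complex.I • (T0 u - T0' u), v⟫_ℂ = ⟪u, Complex.I • (T0 v - T0' v)⟫_ℂ
      rw [inner_smul_left, inner_smul_right, inner_sub_left, inner_sub_right, hT0adj u v,
        ← inner_conj_symm (T0' u) v, ← hT0adj v u, inner_conj_symm, Complex.conj_I]
      ring
    · intro u v
      simp only [sub_apply, smul_apply, inner_sub_left,
        inner_smul_left, hT0inv, hT0inv']
    · simp only [sub_apply, smul_apply, hT0e, hT0e',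
        sub_self, smul_zero]
  have hB3 : T0 - T0' = 0 := (smul_eq_zero.1 hB2).resolve_left Complex.I_ne_zero
  apply hT0ne
  have h1 : T0 = T0' := sub_eq_zero.1 hB3
  rw [← h1] at hB1
  have h2 : (2 : ℂ) • T0 = 0 := by rw [two_smul]; exact hB1
  exact (smul_eq_zero.1 h2).resolve_left two_ne_zero

end Abstract

section Concrete

variable {Ω : Type*} [MeasurableSpace Ω] (m : Measure Ω) [IsProbabilityMeasure m]

lemma integrable_ten (u v : Lp ℂ 2 m) :
    Integrable (fun p : Ω × Ω => v p.1 * conj (u p.2)) (m.prod m) := by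
  have hu : Integrable (u : Ω → ℂ) m := (Lp.memLp u).integrable one_le_two
  have hv : Integrable (v : Ω → ℂ) m := (Lp.memLp v).integrable one_le_two
  have hu' : Integrable (fun x => conj (u x)) m := by
    exact (Complex.conjLIE.toContinuousLinearEquiv.toContinuousLinearMap).integrable_comp hu
  exact hv.mul_prod hu'

lemma memLp_ten (u v : Lp ℂ 2 m) :
    MemLp (fun p : Ω × Ω => v p.1 * conj (u p.2)) 2 (m.prod m) := by
  rw [memLp_two_iff_integrable_sq_norm (integrable_ten m u v).aestronglyMeasurable]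
  have hu : Integrable (fun x => ‖u x‖ ^ 2) m :=
    (memLp_two_iff_integrable_sq_norm (Lp.aestronglyMeasurable u)).1 (Lp.memLp u)
  have hv : Integrable (fun x => ‖v x‖ ^ 2) m :=
    (memLp_two_iff_integrable_sq_norm (Lp.aestronglyMeasurable v)).1 (Lp.memLp v)
  have h := hv.mul_prod hu
  refine h.congr (Eventually.of_forall fun p => ?_)
  simp only [norm_mul, RCLike.norm_conj, mul_pow]

/-- The element `(x, y) ↦ v x * conj (u y)`. -/
noncomputable def ten (u v : Lp ℂ 2 m) : Lp ℂ 2 (m.prod m) := (memLp_ten m u v).toLp _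

lemma ten_ae (u v : Lp ℂ 2 m) :
    (ten m u v : Ω × Ω → ℂ) =ᵐ[m.prod m] fun p => v p.1 * conj (u p.2) :=
  (memLp_ten m u v).coeFn_toLp

lemma norm_sq_lp {α : Type*} [MeasurableSpace α] (μ : Measure α) (u : Lp ℂ 2 μ) :
    ‖u‖ ^ 2 = ∫ x, ‖u x‖ ^ 2 ∂μ := by
  have h := @inner_self_eq_norm_sq_to_K ℂ (Lp ℂ 2 μ) _ _ _ u
  rw [L2.inner_def] at h
  have h2 : (∫ a, ⟪u a, u a⟫_ℂ ∂μ) = ((∫ x, ‖u x‖ ^ 2 ∂μ : ℝ) : ℂ) := by
    rw [← integral_complex_ofReal]
    refine integral_congr_ae (Eventually.of_forall fun x => ?_)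
    simp only [inner_self_eq_norm_sq_to_K]
    push_cast
    rfl
  rw [h2] at h
  have h3 : ((‖u‖ ^ 2 : ℝ) : ℂ) = ((∫ x, ‖u x‖ ^ 2 ∂μ : ℝ) : ℂ) := by
    rw [h]
    push_cast
    rfl
  exact_mod_cast h3

lemma norm_ten (u v : Lp ℂ 2 m) : ‖ten m u v‖ = ‖u‖ * ‖v‖ := by
  have h : ‖ten m u v‖ ^ 2 = (‖u‖ * ‖v‖) ^ 2 := by
    rw [norm_sq_lp, mul_pow, norm_sq_lp m u, norm_sq_lp m v, mul_comm, ← integral_prod_mul]
    refine integral_congr_ae ?_
    filter_upwards [ten_ae m u v] with p hp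
    rw [hp]
    simp only [norm_mul, RCLike.norm_conj, mul_pow]
  exact (sq_eq_sq₀ (norm_nonneg _) (by positivity)).1 h

lemma ten_add_left (u u' v : Lp ℂ 2 m) : ten m (u + u') v = ten m u v + ten m u' v := by
  apply Lp.ext
  have h1 : ∀ᵐ p ∂(m.prod m), (u + u' : Lp ℂ 2 m) p.2 = u p.2 + u' p.2 :=
    Measure.quasiMeasurePreserving_snd.ae (Lp.coeFn_add u u')
  filter_upwards [ten_ae m (u + u') v, ten_ae m u v, ten_ae m u' v, h1,
    Lp.coeFn_add (ten m u v) (ten m u' v)] with p h2 h3 h4 h5 h6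
  rw [h2, h6, Pi.add_apply, h3, h4, h5, map_add]
  ring

lemma ten_add_right (u v v' : Lp ℂ 2 m) : ten m u (v + v') = ten m u v + ten m u v' := by
  apply Lp.ext
  have h1 : ∀ᵐ p ∂(m.prod m), (v + v' : Lp ℂ 2 m) p.1 = v p.1 + v' p.1 :=
    Measure.quasiMeasurePreserving_fst.ae (Lp.coeFn_add v v')
  filter_upwards [ten_ae m u (v + v'), ten_ae m u v, ten_ae m u v', h1,
    Lp.coeFn_add (ten m u v) (ten m u v')] with p h2 h3 h4 h5 h6
  rw [h2, h6, Pi.add_apply, h3, h4, h5]
  ring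

lemma ten_smul_left (c : ℂ) (u v : Lp ℂ 2 m) : ten m (c • u) v = conj c • ten m u v := by
  apply Lp.ext
  have h1 : ∀ᵐ p ∂(m.prod m), (c • u : Lp ℂ 2 m) p.2 = c • u p.2 :=
    Measure.quasiMeasurePreserving_snd.ae (Lp.coeFn_smul c u)
  filter_upwards [ten_ae m (c • u) v, ten_ae m u v, h1,
    Lp.coeFn_smul (conj c) (ten m u v)] with p h2 h3 h5 h6
  rw [h2, h6, Pi.smul_apply, h3, h5, smul_eq_mul, smul_eq_mul, map_mul]
  ring

lemma ten_smul_right (c : ℂ) (u v : Lp ℂ 2 m) : ten m u (c • v) = c • ten m u v := by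
  apply Lp.ext
  have h1 : ∀ᵐ p ∂(m.prod m), (c • v : Lp ℂ 2 m) p.1 = c • v p.1 :=
    Measure.quasiMeasurePreserving_fst.ae (Lp.coeFn_smul c v)
  filter_upwards [ten_ae m u (c • v), ten_ae m u v, h1,
    Lp.coeFn_smul c (ten m u v)] with p h2 h3 h5 h6
  rw [h2, h6, Pi.smul_apply, h3, h5, smul_eq_mul, smul_eq_mul]
  ring

/-- The sesquilinear form of the kernel `k`. -/
noncomputable def form (k : Lp ℂ 2 (m.prod m)) : Lp ℂ 2 m →L⋆[ℂ] Lp ℂ 2 m →L[ℂ] ℂ :=
  LinearMap.mkContinuous₂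
    (LinearMap.mk₂'ₛₗ (starRingEnd ℂ) (RingHom.id ℂ) (fun u v => ⟪k, ten m u v⟫_ℂ)
      (fun u u' v => by rw [ten_add_left, inner_add_right])
      (fun c u v => by rw [ten_smul_left, inner_smul_right, smul_eq_mul])
      (fun u v v' => by rw [ten_add_right, inner_add_right])
      (fun c u v => by rw [ten_smul_right, inner_smul_right, smul_eq_mul, RingHom.id_apply]))
    ‖k‖ (fun u v => by
      rw [mul_assoc, ← norm_ten]
      exact norm_inner_le_norm (𝕜 := ℂ) k (ten m u v))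

/-- The Hilbert-Schmidt operator with kernel `k`. -/
noncomputable def hs (k : Lp ℂ 2 (m.prod m)) : Lp ℂ 2 m →L[ℂ] Lp ℂ 2 m :=
  InnerProductSpace.continuousLinearMapOfBilin (form m k)

lemma inner_hs (k : Lp ℂ 2 (m.prod m)) (u v : Lp ℂ 2 m) : ⟪hs m k u, v⟫_ℂ = ⟪k, ten m u v⟫_ℂ :=
  InnerProductSpace.continuousLinearMapOfBilin_apply (form m k) u v

lemma hs_add (k k' : Lp ℂ 2 (m.prod m)) : hs m (k + k') = hs m k + hs m k' := by
  ext1 u
  apply ext_inner_right ℂ
  intro v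
  rw [add_apply, inner_add_left, inner_hs, inner_hs, inner_hs, inner_add_left]

lemma hs_sub (k k' : Lp ℂ 2 (m.prod m)) : hs m (k - k') = hs m k - hs m k' := by
  ext1 u
  apply ext_inner_right ℂ
  intro v
  rw [sub_apply, inner_sub_left, inner_hs, inner_hs, inner_hs, inner_sub_left]

lemma norm_hs (k : Lp ℂ 2 (m.prod m)) : ‖hs m k‖ ≤ ‖k‖ := by
  refine ContinuousLinearMap.opNorm_le_bound _ (norm_nonneg _) fun u => ?_
  have h1 : ‖hs m k u‖ ^ 2 ≤ ‖k‖ * ‖u‖ * ‖hs m k u‖ := by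
    have h2 := inner_hs m k u (hs m k u)
    have h3 : ‖⟪k, ten m u (hs m k u)⟫_ℂ‖ ≤ ‖k‖ * (‖u‖ * ‖hs m k u‖) := by
      rw [← norm_ten]
      exact norm_inner_le_norm _ _
    rw [← h2, inner_self_eq_norm_sq_to_K, norm_pow] at h3
    simpa [mul_assoc] using h3
  rcases eq_or_lt_of_le (norm_nonneg (hs m k u)) with h0 | h0
  · rw [← h0]
    positivity
  · rw [pow_two] at h1
    exact le_of_mul_le_mul_right h1 h0

lemma hs_tendsto {k : ℕ → Lp ℂ 2 (m.prod m)} {k0 : Lp ℂ 2 (m.prod m)}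
    (h : Tendsto k atTop (𝓝 k0)) : Tendsto (fun n => hs m (k n)) atTop (𝓝 (hs m k0)) := by
  rw [tendsto_iff_norm_sub_tendsto_zero] at h ⊢
  refine squeeze_zero (fun _ => norm_nonneg _) (fun n => ?_) h
  rw [← hs_sub]
  exact norm_hs m _

/-- The indicator kernel. -/
noncomputable def chi {A : Set (Ω × Ω)} (hA : MeasurableSet A) : Lp ℂ 2 (m.prod m) :=
  indicatorConstLp 2 hA (measure_ne_top _ _) (1 : ℂ)

lemma inner_hs_chi {A : Set (Ω × Ω)} (hA : MeasurableSet A) (u v : Lp ℂ 2 m) :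
    ⟪hs m (chi m hA) u, v⟫_ℂ = ∫ p in A, v p.1 * conj (u p.2) ∂(m.prod m) := by
  rw [inner_hs, chi, L2.inner_indicatorConstLp_one]
  refine setIntegral_congr_ae hA ?_
  filter_upwards [ten_ae m u v] with p hp _
  exact hp

omit [IsProbabilityMeasure m] in
lemma compact_smulRight (b c : Lp ℂ 2 m) :
    IsCompactOperator ((innerSL ℂ c).smulRight b : Lp ℂ 2 m →L[ℂ] Lp ℂ 2 m) := by
  have h1 : IsCompactOperator (innerSL ℂ c) :=
    isCompactOperator_of_locallyCompactSpace_dom (innerSL ℂ c)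
  have h2 : IsCompactOperator (((ContinuousLinearMap.id ℂ ℂ).smulRight b) ∘ (innerSL ℂ c)) :=
    h1.clm_comp _
  have h3 : (((innerSL ℂ c).smulRight b : Lp ℂ 2 m →L[ℂ] Lp ℂ 2 m) : Lp ℂ 2 m → Lp ℂ 2 m) =
      (((ContinuousLinearMap.id ℂ ℂ).smulRight b) ∘ (innerSL ℂ c)) := by
    funext u
    simp
  rw [h3]
  exact h2

lemma inner_hs_rect {B C : Set Ω} (hB : MeasurableSet B) (hC : MeasurableSet C)
    (u v : Lp ℂ 2 m) : ⟪hs m (chi m (hB.prod hC)) u, v⟫_ℂ =
      (∫ x in B, v x ∂m) * conj (∫ y in C, u y ∂m) := by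
  rw [inner_hs_chi, setIntegral_prod_mul (f := fun x => v x) (g := fun y => conj (u y)),
    integral_conj]

lemma hs_rect_compact {B C : Set Ω} (hB : MeasurableSet B) (hC : MeasurableSet C) :
    IsCompactOperator (hs m (chi m (hB.prod hC))) := by
  have h : hs m (chi m (hB.prod hC)) =
      (innerSL ℂ (indicatorConstLp 2 hC (measure_ne_top m _) (1 : ℂ))).smulRight
        (indicatorConstLp 2 hB (measure_ne_top m _) (1 : ℂ)) := by
    ext1 u
    apply ext_inner_right ℂ
    intro v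
    rw [inner_hs_rect m hB hC, ContinuousLinearMap.smulRight_apply, inner_smul_left,
      innerSL_apply_apply, L2.inner_indicatorConstLp_one, L2.inner_indicatorConstLp_one, mul_comm]
  rw [h]
  exact compact_smulRight m _ _

lemma chi_congr {A A' : Set (Ω × Ω)} (hA : MeasurableSet A) (hA' : MeasurableSet A')
    (h : A = A') : chi m hA = chi m hA' := by
  subst h
  rfl

lemma chi_union {A A' : Set (Ω × Ω)} (hA : MeasurableSet A) (hA' : MeasurableSet A')
    (h : Disjoint A A') : chi m (hA.union hA') = chi m hA + chi m hA' :=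
  indicatorConstLp_disjoint_union hA hA' _ _ h _

lemma hs_chi_compact {A : Set (Ω × Ω)} (hA : MeasurableSet A) :
    IsCompactOperator (hs m (chi m hA)) := by
  induction A, hA using MeasurableSpace.induction_on_inter generateFrom_prod.symm isPiSystem_prod with
  | empty =>
    have : chi m (MeasurableSet.empty : MeasurableSet (∅ : Set (Ω × Ω))) = 0 := by
      rw [chi, indicatorConstLp_empty]
    rw [this]
    have h2 : hs m (0 : Lp ℂ 2 (m.prod m)) = 0 := by
      ext1 u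
      apply ext_inner_right ℂ
      intro v
      rw [inner_hs, inner_zero_left]
      simp
    rw [h2]
    exact isCompactOperator_zero
  | basic A hA =>
    obtain ⟨B, hB, C, hC, rfl⟩ := hA
    exact hs_rect_compact m hB hC
  | compl A hA ih =>
    have h2 : chi m hA.compl = chi m (MeasurableSet.univ.prod MeasurableSet.univ) - chi m hA := by
      rw [eq_sub_iff_add_eq, ← chi_union m hA.compl hA disjoint_compl_left]
      apply chi_congr
      rw [compl_union_self, univ_prod_univ]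
    rw [h2, hs_sub]
    exact (hs_rect_compact m MeasurableSet.univ MeasurableSet.univ).sub ih
  | iUnion f hd hf ih =>
    have hacc : ∀ n : ℕ, MeasurableSet (⋃ i ∈ Finset.range n, f i) := fun n =>
      Finset.measurableSet_biUnion _ (fun i _ => hf i)
    have hc : ∀ n, IsCompactOperator (hs m (chi m (hacc n))) := by
      intro n
      induction n with
      | zero =>
        have h0 : chi m (hacc 0) = chi m (MeasurableSet.empty.prod MeasurableSet.empty) := by
          apply chi_congr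
          simp
        rw [h0]
        exact hs_rect_compact m MeasurableSet.empty MeasurableSet.empty
      | succ n ihn =>
        have h1 : chi m (hacc (n + 1)) = chi m (hf n) + chi m (hacc n) := by
          rw [← chi_union m (hf n) (hacc n)]
          · apply chi_congr
            rw [Finset.range_add_one, Finset.set_biUnion_insert]
          · rw [disjoint_iUnion₂_right]
            intro i hi
            exact hd (by rintro rfl; simp at hi)
        rw [h1, hs_add]
        exact (ih n).add ihn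
    have hlim : Tendsto (fun n => chi m (hacc n)) atTop (𝓝 (chi m (MeasurableSet.iUnion hf))) := by
      apply tendsto_indicatorConstLp_set (by norm_num)
      have h0 := tendsto_measure_biUnion_Ici_zero_of_pairwise_disjoint (μ := m.prod m)
        (fun i => (hf i).nullMeasurableSet) hd
      refine tendsto_of_tendsto_of_tendsto_of_le_of_le tendsto_const_nhds h0
        (fun _ => zero_le) (fun n => ?_)
      refine measure_mono ?_
      rintro p (⟨hp1, hp2⟩ | ⟨hp1, hp2⟩)
      · exact absurd (iUnion₂_subset_iUnion _ _ hp1) hp2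
      · obtain ⟨i, hi⟩ := mem_iUnion.1 hp1
        have hin : n ≤ i := by
          by_contra hcon
          exact hp2 (mem_iUnion₂.2 ⟨i, Finset.mem_range.2 (by omega), hi⟩)
        exact mem_iUnion₂.2 ⟨i, hin, hi⟩
    exact isCompactOperator_of_tendsto (hs_tendsto m hlim) (Eventually.of_forall hc)

lemma hs_adj {A : Set (Ω × Ω)} (hA : MeasurableSet A) (u v : Lp ℂ 2 m) :
    ⟪hs m (chi m hA) u, v⟫_ℂ = ⟪u, hs m (chi m (measurable_swap hA)) v⟫_ℂ := by
  rw [← inner_conj_symm u, inner_hs_chi, inner_hs_chi, ← integral_conj]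
  have h1 : ∫ p in A, v p.1 * conj (u p.2) ∂(m.prod m) =
      ∫ p in A, v p.1 * conj (u p.2) ∂((m.prod m).map Prod.swap) := by
    rw [Measure.prod_swap]
  rw [h1, setIntegral_map hA _ measurable_swap.aemeasurable]
  · refine setIntegral_congr_fun (measurable_swap hA) (fun p _ => ?_)
    simp [mul_comm]
  · rw [Measure.prod_swap]
    exact (integrable_ten m u v).aestronglyMeasurable

/-- The Koopman isometry. -/
noncomputable def koop (S : Ω → Ω) (hS : MeasurePreserving S m m) : Lp ℂ 2 m →ₗᵢ[ℂ] Lp ℂ 2 m :=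
  Lp.compMeasurePreservingₗᵢ ℂ S hS

omit [IsProbabilityMeasure m] in
lemma koop_ae (S : Ω → Ω) (hS : MeasurePreserving S m m) (w : Lp ℂ 2 m) :
    (koop m S hS w : Ω → ℂ) =ᵐ[m] fun x => w (S x) :=
  Lp.coeFn_compMeasurePreserving w hS

/-- Indicator functions. -/
noncomputable def ind {B : Set Ω} (hB : MeasurableSet B) : Lp ℂ 2 m :=
  indicatorConstLp 2 hB (measure_ne_top m _) (1 : ℂ)

lemma ind_ae {B : Set Ω} (hB : MeasurableSet B) :
    (ind m hB : Ω → ℂ) =ᵐ[m] B.indicator fun _ => 1 := indicatorConstLp_coeFn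

lemma inner_ind {B : Set Ω} (hB : MeasurableSet B) (u : Lp ℂ 2 m) :
    ⟪ind m hB, u⟫_ℂ = ∫ x in B, u x ∂m := L2.inner_indicatorConstLp_one _ _ _

lemma setIntegral_ind {B C : Set Ω} (hB : MeasurableSet B) (hC : MeasurableSet C) :
    ∫ x in C, ind m hB x ∂m = m.real (C ∩ B) := by
  have h1 : ∫ x in C, ind m hB x ∂m = ∫ x in C, B.indicator (fun _ => (1 : ℂ)) x ∂m := by
    refine setIntegral_congr_ae hC ?_
    filter_upwards [ind_ae m hB] with x hx _
    exact hx
  rw [h1, setIntegral_indicator hB, setIntegral_const]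
  simp

lemma norm_ind_univ : ‖ind m (MeasurableSet.univ : MeasurableSet (univ : Set Ω))‖ = 1 := by
  have h : ⟪ind m (MeasurableSet.univ : MeasurableSet (univ : Set Ω)),
      ind m (MeasurableSet.univ : MeasurableSet (univ : Set Ω))⟫_ℂ = 1 := by
    rw [inner_ind, setIntegral_ind]
    · simp
    · exact MeasurableSet.univ
  rw [inner_self_eq_norm_sq_to_K] at h
  have h2 : ‖ind m (MeasurableSet.univ : MeasurableSet (univ : Set Ω))‖ ^ 2 = 1 := by
    have h3 : ((‖ind m (MeasurableSet.univ : MeasurableSet (univ : Set Ω))‖ ^ 2 : ℝ) : ℂ) = 1 := by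
      rw [← h]
      push_cast
      rfl
    exact_mod_cast h3
  exact (pow_eq_one_iff_of_nonneg (norm_nonneg _) two_ne_zero).1 h2

lemma ind_univ_ae : (ind m (MeasurableSet.univ : MeasurableSet (univ : Set Ω)) : Ω → ℂ) =ᵐ[m]
    fun _ => 1 := by
  filter_upwards [ind_ae m (MeasurableSet.univ : MeasurableSet (univ : Set Ω))] with x hx
  rw [hx]
  simp

lemma koop_one (S : Ω → Ω) (hS : MeasurePreserving S m m) :
    koop m S hS (ind m MeasurableSet.univ) = ind m MeasurableSet.univ := by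
  apply Lp.ext
  filter_upwards [koop_ae m S hS (ind m MeasurableSet.univ),
    hS.quasiMeasurePreserving.ae (ind_univ_ae m), ind_univ_ae m] with x h1 h2 h3
  rw [h1, h2, h3]

lemma inner_hs_ind {A : Set (Ω × Ω)} (hA : MeasurableSet A) {B C : Set Ω} (hB : MeasurableSet B)
    (hC : MeasurableSet C) :
    ⟪hs m (chi m hA) (ind m hC), ind m hB⟫_ℂ = (m.prod m).real (A ∩ B ×ˢ C) := by
  rw [inner_hs_chi]
  have h1 : ∫ p in A, (ind m hB) p.1 * conj ((ind m hC) p.2) ∂(m.prod m) =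
      ∫ p in A, (B ×ˢ C).indicator (fun _ => (1 : ℂ)) p ∂(m.prod m) := by
    refine setIntegral_congr_ae hA ?_
    have h2 := (Measure.quasiMeasurePreserving_fst (μ := m) (ν := m)).ae (ind_ae m hB)
    have h3 := (Measure.quasiMeasurePreserving_snd (μ := m) (ν := m)).ae (ind_ae m hC)
    filter_upwards [h2, h3] with p hp1 hp2 _
    rw [hp1, hp2]
    by_cases h4 : p.1 ∈ B <;> by_cases h5 : p.2 ∈ C <;> simp [indicator, h4, h5]
  rw [h1, setIntegral_indicator (hB.prod hC), setIntegral_const]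
  simp

lemma hs_ne {A : Set (Ω × Ω)} (hA : MeasurableSet A) (hA0 : (m.prod m) A ≠ 0)
    (hA1 : (m.prod m) Aᶜ ≠ 0) (c : ℂ) :
    ¬ ∀ u v, ⟪hs m (chi m hA) u, v⟫_ℂ =
      c * (⟪u, ind m MeasurableSet.univ⟫_ℂ * ⟪ind m MeasurableSet.univ, v⟫_ℂ) := by
  intro hc
  have h1 : ∀ B C : Set Ω, MeasurableSet B → MeasurableSet C →
      ((m.prod m).real (A ∩ B ×ˢ C) : ℂ) = c * (m.real C * m.real B) := by
    intro B C hB hC
    rw [← inner_hs_ind m hA hB hC, hc, inner_ind, inner_ind, setIntegral_ind m _ hC,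
      setIntegral_ind m _ MeasurableSet.univ]
    simp
  have hcA : c = (m.prod m).real A := by
    have h2 := h1 univ univ MeasurableSet.univ MeasurableSet.univ
    simp only [univ_prod_univ, inter_univ, probReal_univ] at h2
    rw [h2]
    simp
  have h2 : ∀ B C : Set Ω, MeasurableSet B → MeasurableSet C →
      (m.prod m) (A ∩ B ×ˢ C) = (m.prod m) A * (m B * m C) := by
    intro B C hB hC
    have h3 := h1 B C hB hC
    rw [hcA] at h3
    have h4 : (m.prod m).real (A ∩ B ×ˢ C) = (m.prod m).real A * (m.real B * m.real C) := by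
      rw [mul_comm (m.real B)]
      exact_mod_cast h3
    rw [← ENNReal.toReal_eq_toReal_iff' (measure_ne_top _ _)
      (ENNReal.mul_ne_top (measure_ne_top _ _) (ENNReal.mul_ne_top (measure_ne_top _ _)
        (measure_ne_top _ _))), ENNReal.toReal_mul, ENNReal.toReal_mul]
    exact h4
  have h3 : m.prod m = ((m.prod m) A)⁻¹ • (m.prod m).restrict A := by
    refine Measure.prod_eq fun B C hB hC => ?_
    rw [Measure.smul_apply, Measure.restrict_apply (hB.prod hC), inter_comm, h2 B C hB hC,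
      smul_eq_mul, ← mul_assoc, ENNReal.inv_mul_cancel hA0 (measure_ne_top _ _), one_mul]
  apply hA1
  rw [h3, Measure.smul_apply, Measure.restrict_apply hA.compl, compl_inter_self, measure_empty,
    smul_zero]

lemma hs_inv (S : Ω → Ω) (hS : MeasurePreserving S m m) {A : Set (Ω × Ω)} (hA : MeasurableSet A)
    (hSA : Prod.map S S ⁻¹' A = A) (u v : Lp ℂ 2 m) :
    ⟪hs m (chi m hA) (koop m S hS u), koop m S hS v⟫_ℂ = ⟪hs m (chi m hA) u, v⟫_ℂ := by
  have hSS : MeasurePreserving (Prod.map S S) (m.prod m) (m.prod m) := hS.prod hS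
  rw [inner_hs_chi, inner_hs_chi]
  have h1 : ∫ p in A, v p.1 * conj (u p.2) ∂(m.prod m) =
      ∫ p in A, v p.1 * conj (u p.2) ∂((m.prod m).map (Prod.map S S)) := by
    rw [hSS.map_eq]
  rw [h1, setIntegral_map hA _ hSS.measurable.aemeasurable, hSA]
  · refine setIntegral_congr_ae hA ?_
    have h2 := (Measure.quasiMeasurePreserving_fst (μ := m) (ν := m)).ae (koop_ae m S hS v)
    have h3 := (Measure.quasiMeasurePreserving_snd (μ := m) (ν := m)).ae (koop_ae m S hS u)
    filter_upwards [h2, h3] with p hp1 hp2 _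
    rw [hp1, hp2]
    rfl
  · rw [hSS.map_eq]
    exact (integrable_ten m u v).aestronglyMeasurable

lemma exists_eigen_koop (S : Ω → Ω) (hS : MeasurePreserving S m m) {A : Set (Ω × Ω)}
    (hA : MeasurableSet A) (hSA : Prod.map S S ⁻¹' A = A) (hA0 : (m.prod m) A ≠ 0)
    (hA1 : (m.prod m) Aᶜ ≠ 0) : ∃ (z : ℂ) (f : Lp ℂ 2 m), ‖z‖ = 1 ∧ koop m S hS f = z • f ∧
      ¬ ∃ c : ℂ, f = c • ind m MeasurableSet.univ :=
  exists_eigen (koop m S hS) (hs m (chi m hA)) (hs m (chi m (measurable_swap hA)))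
    (hs_chi_compact m hA) (hs_chi_compact m _) (hs_adj m hA) (hs_inv m S hS hA hSA)
    (ind m MeasurableSet.univ) (norm_ind_univ m) (koop_one m S hS) (hs_ne m hA hA0 hA1)

end Concrete

theorem exists_eigenfunction {Ω : Type*} [MeasurableSpace Ω] (m : Measure Ω)
    [IsProbabilityMeasure m] (S : Ω → Ω) (hS : MeasurePreserving S m m)
    (h : ¬ Ergodic (Prod.map S S) (m.prod m)) :
    ∃ (z : ℂ) (f : Ω → ℂ), ‖z‖ = 1 ∧ StronglyMeasurable f ∧ MemLp f 2 m ∧
      (∀ᵐ x ∂m, f (S x) = z * f x) ∧ ¬ ∃ c : ℂ, ∀ᵐ x ∂m, f x = c := by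
  have hSS : MeasurePreserving (Prod.map S S) (m.prod m) (m.prod m) := hS.prod hS
  -- the invariant set
  obtain ⟨A, hA, hSA, hA0, hA1⟩ : ∃ A : Set (Ω × Ω), MeasurableSet A ∧ Prod.map S S ⁻¹' A = A ∧
      (m.prod m) A ≠ 0 ∧ (m.prod m) Aᶜ ≠ 0 := by
    by_contra hcon
    push Not at hcon
    apply h
    refine ⟨hSS, ⟨fun A hA hSA => ?_⟩⟩
    by_cases h0 : (m.prod m) A = 0
    · rw [Filter.eventuallyConst_set']
      left
      exact ae_eq_empty.2 h0
    · rw [Filter.eventuallyConst_set']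
      right
      exact ae_eq_univ.2 (hcon A hA hSA h0)
  obtain ⟨z, f, hz, hf, hfc⟩ := exists_eigen_koop m S hS hA hSA hA0 hA1
  refine ⟨z, f, hz, Lp.stronglyMeasurable f, Lp.memLp f, ?_, ?_⟩
  · have h1 := koop_ae m S hS f
    rw [hf] at h1
    filter_upwards [h1, Lp.coeFn_smul z f] with x h1 h2
    rw [← h1, h2]
    rfl
  · rintro ⟨c, hc⟩
    apply hfc
    refine ⟨c, ?_⟩
    apply Lp.ext
    filter_upwards [hc, Lp.coeFn_smul c (ind m MeasurableSet.univ), ind_univ_ae m] with x h1 h2 h3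
    rw [h1, h2, Pi.smul_apply, h3, smul_eq_mul, mul_one]

end Pool.Agent.Skew
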